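import Pool.Agent.MP_5e38ef_lc.KK.Inst

namespace Pool.Agent.Results.MP_5e38ef_lc.KikuchiProbes
open Pool.Agent.MP_5e38ef_lc

theorem result (k t : ℕ) (hk : 2 ≤ k) (ht : 2 ≤ t) (δ : ℝ) (hδ : 0 < δ) (hδ1 : δ ≤ 1) :
    ∀ᶠ n : ℕ in Filter.atTop, ∀ U S w : ℕ, 4 * n ^ k ≤ U →
      7 * t * (w : ℝ) ≤ δ * Real.logb 2 n → KK.SolvesR k n U S w t →
        (n : ℝ) ^ (1 + 2 * ((k : ℝ) - 1) / t - δ) ≤ S :=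
  KK.main k t hk ht δ hδ hδ1

end Pool.Agent.Results.MP_5e38ef_lc.KikuchiProbes
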