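import Pool.Agent.Mg.F5e38efa.G1775e1
import Pool.Agent.Mg.F5e38efa.G478d36

namespace Pool.Agent.Results.MP_5e38ef_lc.SaveOneProbe
open Pool.Agent.MP_5e38ef_lc

theorem result (k t : ℕ) (hk : 2 ≤ k) (ht : 2 ≤ t) (δ : ℝ) (hδ : 0 < δ) :
    ∃ C : ℕ, ∀ᶠ n : ℕ in Filter.atTop, ∀ U S w : ℕ, n ^ C ≤ U → (2 ^ w) ^ C ≤ U ^ (C + 1) →
      (t - 2) * w ^ C ≤ n → Solves k n U S w t →
        (n : ℝ) ^ (1 + ((k : ℝ) - 1) / ((t : ℝ) - 1) - δ) ≤ S :=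
  SP.final SP.params SP.abstract k t hk ht δ hδ

end Pool.Agent.Results.MP_5e38ef_lc.SaveOneProbe
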