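import Pool.Agent.MP_5e38ef_lc.KK.Bits

namespace Pool.Agent.Results.MP_5e38ef_lc.ThreeBitProbes
open Pool.Agent.MP_5e38ef_lc

theorem result (k t d : ℕ) (hk : 2 ≤ k) (hd : 2 ≤ d) (δ : ℝ) (hδ : 0 < δ) :
    ∀ᶠ n : ℕ in Filter.atTop, ∀ U S : ℕ, 4 * n ^ k ≤ U → KK.SolvesBits k n U S t d →
      (n : ℝ) ^ (1 + 2 * ((k : ℝ) - 1) / d - δ) ≤ S :=
  KK.main_bits k t d hk hd δ hδ

end Pool.Agent.Results.MP_5e38ef_lc.ThreeBitProbes
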