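import Pool.Agent.Mg.F5e38efa.Gd00ba5
import Pool.Agent.Mg.F5e38efa.Gfe0b12
import Pool.Agent.Mg.F5e38efa.Gbe7db9

namespace Pool.Agent.Results.MP_5e38ef_lc.WideWords
open Pool.Agent.MP_5e38ef_lc

theorem result (k t a c : ℕ) (hk : 2 ≤ k) (ht : 2 ≤ t) (ha : 2 ≤ a) (hka : k ≤ a * t) (δ : ℝ)
    (hδ : 0 < δ) :
    ∀ᶠ n : ℕ in Filter.atTop, ∀ U S w : ℕ, 2 ^ w ≤ n ^ c →
      2 ^ w * n ^ (k * (a + 1) + 1) ≤ U ^ a → Solves k n U S w t →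
        (n : ℝ) ^ (1 + ((k : ℝ) - 1) / ((t : ℝ) - 1 / (a : ℝ)) - δ) ≤ S := by
  obtain ⟨Q, hQ⟩ := WW.abstractW k a hk ha
  exact WW.finalW Q k t a c hk ht ha
    (WW.paramsW Q k a (c + 1) (t - 2) hk ha (by rwa [Nat.sub_add_cancel ht])) (hQ (t - 2)) δ hδ

end Pool.Agent.Results.MP_5e38ef_lc.WideWords
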